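import Pool.Agent.Helper26.HW.Stmts
import Pool.Agent.Helper48.HV.MRZ

/-! Row MRZ0 of the sheet HW: the momentum in the outer region, no condition on the number of
nuclei. -/

set_option autoImplicit false

namespace Pool.Agent.Helper48.HW

open MeasureTheory Filter Pool.Agent.Helper95 Pool.Agent.Helper95.PW Pool.Agent.Helper95.LN
  Pool.Agent.Helper95.CF Pool.Agent.Helper95.HV Pool.Agent.Helper48.HV Pool.Agent.Helper26.HW

theorem MRZ0 (hDBS : ST_DBS) (hV2R : ST_V2R0) (hLOCY : ST_LOCY) (hFLD : ST_FLD)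
    (hCUT : ST_CUT) (hCSQM : ST_CSQM) (hSTB : ST_STB) (hAIDM : ST_AIDM) (hCIDM : ST_CIDM)
    (hKINM : ST_KINM) (hERR : ST_ERR) (_hQHM : ST_QHM) (hINTM : ST_INTM) (hAED : ST_AED)
    (hPAN : ST_PAN) (_hIBP : ST_IBP) : ST_MRZ0 := by
  obtain ⟨K1, hK1, hF⟩ := hFLD
  obtain ⟨K2, hK2, hC2, -⟩ := hCUT
  obtain ⟨CK, hCK, hKIN⟩ := hKINM
  obtain ⟨CH, hCH, hHL⟩ := st_HLOC st_HA3
  intro d hd hd1
  obtain ⟨CV, hCV, hV⟩ := hV2R d hd hd1
  obtain ⟨C0, CY, hC0, hCY, hL⟩ := hLOCY d hd hd1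
  obtain ⟨K, hKdef⟩ : ∃ K : ℝ, K = 2 * (K1 + K2) := ⟨_, rfl⟩
  have hK0 : 0 < K := by rw [hKdef]; linarith
  obtain ⟨c1, hc1⟩ : ∃ c1 : ℝ, c1 = 3 * (CK * K ^ 2) / (d / 8) ^ 2 := ⟨_, rfl⟩
  obtain ⟨c2, hc2⟩ : ∃ c2 : ℝ, c2 = 3 * (CK * K ^ 2) * 2 / (d / 8) ^ 4 + CV := ⟨_, rfl⟩
  have hc1p : 0 < c1 := by rw [hc1]; positivity
  have hc2p : 0 < c2 := by rw [hc2]; positivity
  refine ⟨6 * K ^ 2 * (c1 + c2 + CV * CY + CV) + CY, by positivity, ?_⟩
  intro z L B E n M X Z hDat hLow hL1 hXL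
  have hz1 := hDat.z1
  have hZ := hDat.nuc.1
  have hn0 : (0:ℝ) ≤ n := Nat.cast_nonneg n
  obtain ⟨h, hh⟩ : ∃ h : Fin 3 → R3 → ℝ, h = fun m y => gm m L y - gN X m (d / 8) y := ⟨_, rfl⟩
  have hd8 : 0 < d / 8 := by positivity
  have hFF := fun m => hF M X d (d / 8) (d / 8) m hd hDat.sep hd8 le_rfl (by linarith)
  have hGG := fun m => hC2 m L (by linarith)
  have hsc : ∀ m, Scale (h m) K (d / 8) := by
    intro m
    rw [hh, hKdef]
    exact scale_sub' (by linarith) hd8 (by linarith)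
      (scale_mono' (by linarith) (by linarith) (hGG m).1)
      (scale_mono' hd8 (by linarith) (hFF m).1)
  have hnear : ∀ m j y, nr (y - X j) < d / 8 → ∀ i, pd i (h m) y = 0 := by
    intro m j y hy i
    have e1 : pd i (gm m L) y = if i = m then 1 else 0 := by
      have hy2 : nr y < L := by
        have k1 := nr_add' (y - X j) (X j)
        rw [sub_add_cancel] at k1
        have k2 := hXL j
        have k3 : 0 ≤ nr (X j) := Real.sqrt_nonneg _
        linarith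
      have hev : gm m L =ᶠ[nhds y] fun z => z m := by
        have ho : {w : R3 | nr w < L} ∈ nhds y :=
          (isOpen_lt shl_nr_cont continuous_const).mem_nhds hy2
        filter_upwards [ho] with w hw
        exact (hGG m).2.1 w (le_of_lt hw)
      unfold pd
      rw [hev.fderiv_eq]
      have e2 : fderiv ℝ (fun z : R3 => z m) y = ContinuousLinearMap.proj m :=
        (hasFDerivAt_apply (𝕜 := ℝ) m y).fderiv
      rw [e2]
      simp [Pi.single_apply, eq_comm]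
    rw [hh]
    simp only []
    rw [pd_sub' (hGG m).1.sm (hFF m).1.sm i]
    simp only []
    rw [e1, (hFF m).2.2.1 j y hy i, sub_self]
  choose Cm hCm hE using fun m => hERR n (h m) (hsc m).sm (hsc m).cs
  obtain ⟨C1, hC1, hCle⟩ : ∃ C1 : ℝ, 0 < C1 ∧ ∀ m, Cm m ≤ C1 := by
    refine ⟨Cm 0 + Cm 1 + Cm 2, by linarith [hCm 0, hCm 1, hCm 2], fun m => ?_⟩
    fin_cases m <;> simp <;> linarith [hCm 0, hCm 1, hCm 2]
  obtain ⟨M0, hM0, hMM⟩ : ∃ M0 : ℝ, 0 ≤ M0 ∧ B ≤ M0 := ⟨|B|, abs_nonneg _, le_abs_self _⟩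
  obtain ⟨D, hDdef⟩ : ∃ D, D = Real.sqrt (C1 * (2 * M0 + 2)) := ⟨_, rfl⟩
  have hD : 0 ≤ D := by rw [hDdef]; exact Real.sqrt_nonneg _
  obtain ⟨Y0, hY0⟩ : ∃ Y0 : ℝ, Y0 = M0 + 2 * |nucR X Z| +
    CY * (z ^ 2 * M + z * (d * (CH * (M0 + n * 2 / d ^ 2)))) := ⟨_, rfl⟩
  have hY0p : 0 ≤ Y0 := by rw [hY0]; positivity
  obtain ⟨T0, hT0⟩ : ∃ T0 : ℝ, T0 = c1 * M0 + c2 * (z * n) + CV * CY * Y0 +
    CV * ((M0 + M0) / L) := ⟨_, rfl⟩
  have hLp : 0 < L := by linarith
  have hT0p : 0 ≤ T0 := by rw [hT0]; positivity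
  obtain ⟨N, hNdef⟩ : ∃ N : ℝ, N = 3 * K ^ 2 * (n * 2) := ⟨_, rfl⟩
  have hNp : 0 ≤ N := by rw [hNdef]; positivity
  refine ⟨D * (3 * N + 3 * D + T0 + 4 * (C1 * (M0 + 2))) / 4 + 1, by positivity, ?_⟩
  intro u hu hA hsq hkin hpair hone hdd hres m
  obtain ⟨ρ, hρ⟩ : ∃ ρ : ℝ, ρ = Real.sqrt (resM X Z E u) := ⟨_, rfl⟩
  have ρ0 : 0 ≤ ρ := by rw [hρ]; exact Real.sqrt_nonneg _
  have ρ1 : ρ ≤ 1 := by rw [hρ]; exact Real.sqrt_le_one.2 hres
  have hf := fun s => SHLM_f hINTM X Z E (hu s).1 (hu s).2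
  have hcau : ∀ f : Wf n, Sm f → PW.sq f ≤ C1 * (2 * M0 + 2) →
      |∑ s, ∫ x, f s x * (hmM X Z (u s) x - E * u s x)| ≤ D * ρ := by
    intro f hf1 hs
    refine (shl_cs f (fun s x => hmM X Z (u s) x - E * u s x) (fun s => (hf1 s).1.continuous)
      (fun s => (hf1 s).2) (fun s => (hf s).1) (fun s => (hf s).2)).trans ?_
    rw [hDdef, hρ]
    exact mul_le_mul (Real.sqrt_le_sqrt hs) le_rfl (Real.sqrt_nonneg _) (Real.sqrt_nonneg _)
  have sq0 : ∀ v : Wf n, 0 ≤ PW.sq v := fun v => shl_sq_nonneg v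
  have kin0 : 0 ≤ kin u := shl_kin_nonneg u
  have dd0 : 0 ≤ dd u := shl_dd_nonneg u
  have pair0 : 0 ≤ pair u := shl_pair_nonneg u
  have on0 : 0 ≤ one (pot X Z) u := shl_one_nonneg _ (SHLM_pot_nonneg hZ) u
  have su0 := sq0 u
  have SF : ∀ m, Sm (fun s => Fg (h m) (u s)) := fun m => (hSTB n (h m) u (hsc m).sm hu).1
  have SP : ∀ m, Sm (fun s => Pg (h m) (u s)) := fun m => (hSTB n (h m) u (hsc m).sm hu).2.1
  have AF : ∀ m, Anti (fun s => Fg (h m) (u s)) := fun m =>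
    ((hSTB n (h m) u (hsc m).sm hu).2.2 hA).1
  have AP : ∀ m, Anti (fun s => Pg (h m) (u s)) := fun m =>
    ((hSTB n (h m) u (hsc m).sm hu).2.2 hA).2
  have SFF : ∀ m, Sm (fun s => Fg (h m) (Fg (h m) (u s))) := fun m =>
    (hSTB n (h m) (fun s => Fg (h m) (u s)) (hsc m).sm (SF m)).1
  have SFP : ∀ m, Sm (fun s => Fg (h m) (Pg (h m) (u s))) := fun m =>
    (hSTB n (h m) (fun s => Pg (h m) (u s)) (hsc m).sm (SP m)).1
  have SPP : ∀ m, Sm (fun s => Pg (h m) (Pg (h m) (u s))) := fun m =>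
    (hSTB n (h m) (fun s => Pg (h m) (u s)) (hsc m).sm (SP m)).2.1
  have bd : ∀ (m : Fin 3) (y : ℝ), 0 ≤ y → y ≤ 2 * M0 + 2 → Cm m * y ≤ C1 * (2 * M0 + 2) :=
    fun m y hy0 hy => mul_le_mul (hCle m) hy hy0 hC1.le
  have a1 : ∀ m, |∑ s, ∫ x, Fg (h m) (Fg (h m) (u s)) x * (hmM X Z (u s) x - E * u s x)| ≤
      D * ρ := fun m =>
    hcau _ (SFF m) ((hE m u hu).1.trans (bd m _ su0 (by linarith)))
  have a2 : ∀ m, |∑ s, ∫ x, Fg (h m) (Pg (h m) (u s)) x * (hmM X Z (u s) x - E * u s x)| ≤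
      D * ρ := fun m =>
    hcau _ (SFP m) ((hE m u hu).2.2.1.trans (bd m _ (by linarith) (by linarith)))
  have a3 : ∀ m, |∑ s, ∫ x, Pg (h m) (Pg (h m) (u s)) x * (hmM X Z (u s) x - E * u s x)| ≤
      D * ρ := fun m =>
    hcau _ (SPP m) ((hE m u hu).2.2.2.trans (bd m _ (by linarith) (by linarith)))
  have hP0 : ∀ m, PW.sq (fun s => Pg (h m) (u s)) ≤ C1 * (M0 + 2) := fun m =>
    (hE m u hu).2.1.trans (mul_le_mul (hCle m) (by linarith) (by linarith) hC1.le)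
  have b0 : ∀ m, 0 ≤ QM X Z (fun s => Pg (h m) (u s)) -
      E * PW.sq (fun s => Pg (h m) (u s)) :=
    fun m => sub_nonneg.2 (hLow _ (SP m) (AP m))
  -- the sum of the double commutators
  have hone1 : one (ind Set.univ) u ≤ n * 2 := by
    refine (SHLM_ind_one Set.univ hu).trans (mul_le_mul_of_nonneg_left hsq hn0)
  have hkinb : ∀ m, kin (fun s => Pg (h m) (u s)) -
      (∑ s, ∫ x, Pg (h m) (Pg (h m) (u s)) x * ∑ k, ∑ i, dv k i (dv k i (u s)) x) ≤
      CK * K ^ 2 * (kin u / (d / 8) ^ 2 + n * 2 / (d / 8) ^ 4) := by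
    intro m
    refine (hKIN n (h m) K (d / 8) Set.univ u (hsc m) hd8 isClosed_univ
      (fun y hy => absurd (Set.mem_univ y) hy) hu).trans ?_
    refine mul_le_mul_of_nonneg_left ?_ (by positivity)
    gcongr
  have hdbs := fun m => hDBS n M X Z (h m) (d / 8) u (hsc m).sm (hsc m).cs hd8 (hnear m) hu
  have hsum : ∑ m, (QM X Z (fun s => Pg (h m) (u s)) - E * PW.sq (fun s => Pg (h m) (u s))) ≤
      3 * (CK * K ^ 2 * (kin u / (d / 8) ^ 2 + n * 2 / (d / 8) ^ 4)) +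
      1 / 2 * (∑ s, ∫ x, (∑ m, D2 X Z (h m) x) * u s x ^ 2) + 3 * (D * ρ) := by
    have k1 : ∑ s, ∫ x, (∑ m, D2 X Z (h m) x) * u s x ^ 2 =
        ∑ m, ∑ s, ∫ x, D2 X Z (h m) x * u s x ^ 2 := by
      rw [Finset.sum_comm]
      refine Finset.sum_congr rfl fun s _ => ?_
      simp only [Finset.sum_mul]
      exact integral_finset_sum _ fun m _ => (hdbs m).1 s
    rw [k1, Finset.mul_sum]
    have k2 : ∀ m, QM X Z (fun s => Pg (h m) (u s)) - E * PW.sq (fun s => Pg (h m) (u s)) ≤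
        CK * K ^ 2 * (kin u / (d / 8) ^ 2 + n * 2 / (d / 8) ^ 4) +
        1 / 2 * (∑ s, ∫ x, D2 X Z (h m) x * u s x ^ 2) + D * ρ := by
      intro m
      rw [key hPAN hSTB hINTM X Z E (hsc m).sm hu, (hdbs m).2]
      have := (abs_le.1 (a3 m)).1
      linarith [hkinb m]
    rw [Fin.sum_univ_three, Fin.sum_univ_three]
    linarith [k2 0, k2 1, k2 2]
  -- the potential part
  obtain ⟨hl1, hl2⟩ := hL z n M X Z hDat
  obtain ⟨hY1, hY2, hY3⟩ := hl2 u hu hsq
  have hpot : ∑ s, ∫ x, (∑ m, D2 X Z (h m) x) * u s x ^ 2 ≤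
      CV * (CY * YY CY d z X Z u) + CV * (z * n) * PW.sq u +
        CV / L * (pair u + one (pot X Z) u) := by
    have k1 : ∀ s, ∫ x, (∑ m, D2 X Z (h m) x) * u s x ^ 2 ≤
        CV * C0 * (∫ x, (Vc X Z x + C0 * (z ^ 2 * M + z * ∑ k, near1 X d (x k))) * u s x ^ 2) +
        CV * (z * n) * (∫ x, u s x ^ 2) +
        CV / L * ((∫ x, rep x * u s x ^ 2) + ∫ x, (∑ k, pot X Z (x k)) * u s x ^ 2) := by
      intro s
      have i1 : Integrable (fun x : Cf n => (∑ m, D2 X Z (h m) x) * u s x ^ 2) := by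
        simp only [Finset.sum_mul]
        exact integrable_finset_sum _ fun m _ => (hdbs m).1 s
      have i2 := hY2 s
      have i3 : Integrable (fun x => u s x ^ 2) := shl_sqint (hu s).1.continuous (hu s).2
      have i4 : Integrable (fun x => rep x * u s x ^ 2) := by
        have := (hINTM n M X Z _ _ (hu s).1 (hu s).2 (hu s).1 (hu s).2).2.1
        simpa only [pow_two] using this
      have i5 : Integrable (fun x => (∑ k, pot X Z (x k)) * u s x ^ 2) := by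
        have := (hINTM n M X Z _ _ (hu s).1 (hu s).2 (hu s).1 (hu s).2).1
        simpa only [pow_two] using this
      rw [← integral_const_mul, ← integral_const_mul, ← integral_add i4 i5,
        ← integral_const_mul]
      have i2' := i2.const_mul (CV * C0)
      have i3' := i3.const_mul (CV * (z * n))
      have i45 : Integrable (fun x => rep x * u s x ^ 2 + (∑ k, pot X Z (x k)) * u s x ^ 2) :=
        i4.add i5
      have i45' := i45.const_mul (CV / L)
      have i23 : Integrable (fun x => CV * C0 * ((Vc X Z x + C0 * (z ^ 2 * M +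
          z * ∑ k, near1 X d (x k))) * u s x ^ 2) + CV * (z * n) * u s x ^ 2) :=
        i2'.add i3'
      rw [← integral_add i2' i3', ← integral_add i23 i45']
      refine integral_mono_ae i1 (i23.add i45') ?_
      filter_upwards [hAED n M X] with x hx
      have v1 := hV z L n M X Z x hDat hL1 hXL hx
      obtain ⟨-, -, v2⟩ := hl1 x hx
      have v3 : ∑ m, D2 X Z (h m) x ≤ CV * (C0 * (Vc X Z x + C0 * (z ^ 2 * M +
          z * ∑ k, near1 X d (x k))) + z * n) +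
          CV / L * (rep x + ∑ k, pot X Z (x k)) := by
        rw [hh]
        refine v1.trans ?_
        have := mul_le_mul_of_nonneg_left v2 hCV.le
        have v5 : 0 ≤ CV * (z * n) := by positivity
        linarith
      have v4 := mul_le_mul_of_nonneg_right v3 (sq_nonneg (u s x))
      refine v4.trans (le_of_eq ?_)
      ring
    have k2 := Finset.sum_le_sum fun s (_ : s ∈ Finset.univ) => k1 s
    refine k2.trans ?_
    rw [Finset.sum_add_distrib, Finset.sum_add_distrib, ← Finset.mul_sum, ← Finset.mul_sum,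
      ← Finset.mul_sum, Finset.sum_add_distrib]
    have k3 := mul_le_mul_of_nonneg_left hY3 hCV.le
    have k4 : PW.sq u = ∑ s, ∫ x, u s x ^ 2 := rfl
    have k5 : pair u = ∑ s, ∫ x, rep x * u s x ^ 2 := rfl
    have k6 : one (pot X Z) u = ∑ s, ∫ x, (∑ k, pot X Z (x k)) * u s x ^ 2 := rfl
    rw [k4, k5, k6]
    linarith
  obtain ⟨Yv, hYv⟩ : ∃ Yv, Yv = YY CY d z X Z u := ⟨_, rfl⟩
  obtain ⟨T, hT⟩ : ∃ T : ℝ, T = c1 * kin u + c2 * (z * n) + CV * CY * Yv +
    CV * ((pair u + one (pot X Z) u) / L) := ⟨_, rfl⟩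
  have hnz : (n : ℝ) ≤ z * n := by
    calc (n : ℝ) = 1 * n := (one_mul _).symm
      _ ≤ z * n := mul_le_mul_of_nonneg_right hz1 hn0
  have hzn : 0 ≤ z * n := hn0.trans hnz
  have hST : ∑ m, (QM X Z (fun s => Pg (h m) (u s)) - E * PW.sq (fun s => Pg (h m) (u s))) ≤
      T + 3 * (D * ρ) := by
    refine hsum.trans ?_
    have k1 : 1 / 2 * (∑ s, ∫ x, (∑ m, D2 X Z (h m) x) * u s x ^ 2) ≤
        CV * CY * Yv + CV * (z * n) + CV * ((pair u + one (pot X Z) u) / L) := by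
      have k2 : CV * (z * n) * PW.sq u ≤ CV * (z * n) * 2 :=
        mul_le_mul_of_nonneg_left hsq (by positivity)
      have k3 : 0 ≤ CV * (CY * Yv) := by rw [hYv]; positivity
      have k4 : 0 ≤ CV / L * (pair u + one (pot X Z) u) := by positivity
      have k5 : CV / L * (pair u + one (pot X Z) u) = CV * ((pair u + one (pot X Z) u) / L) := by
        ring
      rw [← hYv] at hpot
      rw [← k5]
      linarith
    have k6 : 3 * (CK * K ^ 2 * (kin u / (d / 8) ^ 2 + n * 2 / (d / 8) ^ 4)) =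
        c1 * kin u + 3 * (CK * K ^ 2) * 2 / (d / 8) ^ 4 * n := by
      rw [hc1]
      ring
    have k7 : 3 * (CK * K ^ 2) * 2 / (d / 8) ^ 4 * n ≤
        3 * (CK * K ^ 2) * 2 / (d / 8) ^ 4 * (z * n) :=
      mul_le_mul_of_nonneg_left hnz (by positivity)
    rw [k6, hT, hc2]
    linarith
  have hYle : Yv ≤ Y0 := by
    rw [hYv, hY0]
    have k1 := near_bd hd hHL hDat.sep hu
    have k2 : d * (CH * (kin u + n * PW.sq u / d ^ 2)) ≤ d * (CH * (M0 + n * 2 / d ^ 2)) := by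
      have : kin u ≤ M0 := hkin.trans hMM
      gcongr
    have k3 : CY * (z ^ 2 * M + z * one (near1 X d) u) ≤
        CY * (z ^ 2 * M + z * (d * (CH * (M0 + n * 2 / d ^ 2)))) := by
      refine mul_le_mul_of_nonneg_left ?_ hCY.le
      have := mul_le_mul_of_nonneg_left (k1.trans k2) (by linarith : (0:ℝ) ≤ z)
      linarith
    have k4 : nucR X Z * PW.sq u ≤ 2 * |nucR X Z| := by
      calc nucR X Z * PW.sq u ≤ |nucR X Z| * PW.sq u :=
            mul_le_mul_of_nonneg_right (le_abs_self _) su0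
        _ ≤ |nucR X Z| * 2 := mul_le_mul_of_nonneg_left hsq (abs_nonneg _)
        _ = 2 * |nucR X Z| := by ring
    unfold YY QM
    have k5 := hpair.trans hMM
    linarith
  have hTT : T ≤ T0 := by
    rw [hT, hT0]
    have k1 : c1 * kin u ≤ c1 * M0 := mul_le_mul_of_nonneg_left (hkin.trans hMM) hc1p.le
    have k2 : CV * CY * Yv ≤ CV * CY * Y0 := mul_le_mul_of_nonneg_left hYle (by positivity)
    have k3 : CV * ((pair u + one (pot X Z) u) / L) ≤ CV * ((M0 + M0) / L) := by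
      refine mul_le_mul_of_nonneg_left ?_ hCV.le
      exact div_le_div_of_nonneg_right (add_le_add (hpair.trans hMM) (hone.trans hMM)) hLp.le
    linarith
  have hgr : one (grd (h m)) u ≤ N := by
    refine (SHLM_grd_one isClosed_univ (hsc m) (fun y hy => absurd (Set.mem_univ y) hy) hu).trans ?_
    rw [hNdef]
    exact mul_le_mul_of_nonneg_left hone1 (by positivity)
  have hdir : 4 * PW.sq (fun s => Pg (h m) (u s)) ^ 2 ≤
      (N + D * ρ) * (QM X Z (fun s => Pg (h m) (u s)) -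
        E * PW.sq (fun s => Pg (h m) (u s))) + 4 * (D * ρ) * (C1 * (M0 + 2)) := by
    have hcs := hCSQM n M X Z E (fun s => Fg (h m) (u s)) (fun s => Pg (h m) (u s)) hLow (SF m)
      (AF m) (SP m) (AP m)
    rw [hCIDM n M X Z E (h m) u (hsc m).sm hu, hAIDM n M X Z E (h m) u (hsc m).sm hu] at hcs
    exact arith hcs (a1 m) (a2 m) hgr (b0 m) (sq0 _) (hP0 m) hD ρ0
  have hble : QM X Z (fun s => Pg (h m) (u s)) - E * PW.sq (fun s => Pg (h m) (u s)) ≤
      ∑ m, (QM X Z (fun s => Pg (h m) (u s)) - E * PW.sq (fun s => Pg (h m) (u s))) :=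
    Finset.single_le_sum (f := fun m => QM X Z (fun s => Pg (h m) (u s)) -
      E * PW.sq (fun s => Pg (h m) (u s))) (fun m _ => b0 m) (Finset.mem_univ m)
  have hfin := fin_arith hdir hble hST hTT hNp hD ρ0 ρ1
  have hYC : Yv ≤ YY (6 * K ^ 2 * (c1 + c2 + CV * CY + CV) + CY) d z X Z u := by
    rw [hYv]
    unfold YY
    have k1 : 0 ≤ one (near1 X d) u := shl_one_nonneg _ (fun y => Finset.sum_nonneg fun j _ => by
      split_ifs
      · exact div_nonneg zero_le_one (Real.sqrt_nonneg _)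
      · exact le_rfl) u
    have k2 : 0 ≤ z ^ 2 * M + z * one (near1 X d) u := by positivity
    have k3 : 0 ≤ 6 * K ^ 2 * (c1 + c2 + CV * CY + CV) := by positivity
    have k4 := mul_nonneg k3 k2
    generalize 6 * K ^ 2 * (c1 + c2 + CV * CY + CV) = A at k4 ⊢
    generalize z ^ 2 * (M : ℝ) + z * one (near1 X d) u = A2 at k4 ⊢
    have k5 : (A + CY) * A2 = A * A2 + CY * A2 := by ring
    linarith
  have hY1' : 0 ≤ Yv := by rw [hYv]; exact hY1
  rw [hh] at hfin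
  simp only [] at hfin
  rw [← hρ]
  refine hfin.trans ?_
  obtain ⟨YC, hYCd⟩ : ∃ YC, YC = YY (6 * K ^ 2 * (c1 + c2 + CV * CY + CV) + CY) d z X Z u :=
    ⟨_, rfl⟩
  rw [← hYCd] at hYC ⊢
  have hW : N * T / 4 ≤ (6 * K ^ 2 * (c1 + c2 + CV * CY + CV) + CY) *
      (n * (kin u + YC + z * n + (pair u + one (pot X Z) u) / L)) := by
    obtain ⟨W, hWd⟩ : ∃ W : ℝ, W = kin u + YC + z * n +
      (pair u + one (pot X Z) u) / L := ⟨_, rfl⟩
    have w3 : 0 ≤ (pair u + one (pot X Z) u) / L := by positivity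
    have hYC0 : 0 ≤ YC := hY1'.trans hYC
    have hW0 : 0 ≤ W := by rw [hWd]; positivity
    have t1 : c1 * kin u ≤ c1 * W := mul_le_mul_of_nonneg_left (by rw [hWd]; linarith) hc1p.le
    have t2 : c2 * (z * n) ≤ c2 * W :=
      mul_le_mul_of_nonneg_left (by rw [hWd]; linarith) hc2p.le
    have t3 : CV * CY * Yv ≤ CV * CY * W :=
      mul_le_mul_of_nonneg_left (by rw [hWd]; linarith) (by positivity)
    have t4 : CV * ((pair u + one (pot X Z) u) / L) ≤ CV * W :=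
      mul_le_mul_of_nonneg_left (by rw [hWd]; linarith) hCV.le
    have t5 : T ≤ (c1 + c2 + CV * CY + CV) * W := by rw [hT]; linarith
    rw [← hWd]
    calc N * T / 4 ≤ N * ((c1 + c2 + CV * CY + CV) * W) / 4 := by
          have := mul_le_mul_of_nonneg_left t5 hNp
          linarith
      _ = 6 * K ^ 2 * (c1 + c2 + CV * CY + CV) * (n * W) / 4 := by rw [hNdef]; ring
      _ ≤ (6 * K ^ 2 * (c1 + c2 + CV * CY + CV) + CY) * (n * W) := by
          have q1 : 0 ≤ 6 * K ^ 2 * (c1 + c2 + CV * CY + CV) * (n * W) := by positivity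
          have q2 : 0 ≤ CY * (n * W) := by positivity
          linarith
  have hfe : (D * (3 * N + 3 * D + T0 + 4 * (C1 * (M0 + 2))) / 4) * ρ ≤
      (D * (3 * N + 3 * D + T0 + 4 * (C1 * (M0 + 2))) / 4 + 1) * ρ := by
    refine mul_le_mul_of_nonneg_right (by linarith) ρ0
  exact add_le_add hW hfe

end Pool.Agent.Helper48.HW
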